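import Mathlib
import Pool.Agent.H58.Kv2

set_option autoImplicit false

namespace Pool.Agent.Results.MP_22b8ff_nt.LowDisc

open Pool.Agent.H58.Kv

theorem result (p : ℕ) (hp : p.Prime) (α : ℝ) (hα : BadP p α) :
    (∃ C : ℝ, ∀ N : ℕ, 2 ≤ N → ∀ a ∈ Set.Icc (0 : ℝ) 1, ∀ b ∈ Set.Icc (0 : ℝ) 1,
      |(cnt p α N a b : ℝ) / N - a * b| ≤ C * Real.log N ^ 2 / N) ∧
    (fun N : ℕ => disc p α N) =O[Filter.atTop] fun N : ℕ => Real.log N ^ 2 / N := by
  obtain ⟨C, hC⟩ := main hp hα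
  refine ⟨⟨C, hC⟩, Asymptotics.IsBigO.of_bound C ?_⟩
  filter_upwards [Filter.eventually_ge_atTop 2] with N hN
  have h0 := (abs_nonneg _).trans (hC N hN 0 (by simp) 0 (by simp))
  have h1 : 0 ≤ disc p α N := Real.sSup_nonneg (by rintro x ⟨a, _, b, _, rfl⟩; exact abs_nonneg _)
  have h2 : disc p α N ≤ C * Real.log N ^ 2 / N :=
    Real.sSup_le (by rintro x ⟨a, ha, b, hb, rfl⟩; exact hC N hN a ha b hb) h0
  rw [Real.norm_of_nonneg h1, Real.norm_of_nonneg (by positivity), ← mul_div_assoc]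
  exact h2

end Pool.Agent.Results.MP_22b8ff_nt.LowDisc
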